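import Pool.Agent.Helper23_Refl.StmtC4
import Pool.Agent.Helper93_Refl.Lina

/-!
# Modules NONR, NONT: certificates of non reflectivity
-/

namespace Pool.Agent.Refl.H69

open Matrix Pool.Agent.Refl Pool.Agent.Refl.H93

theorem fcI_eq {α : Type} (x : ℤ) (f : ℤ → α) : K.fcI x f = f x := by
  cases x with
  | ofNat n => exact fc_eq n fun n => f (Int.ofNat n)
  | negSucc n => exact fc_eq n fun n => f (Int.negSucc n)

theorem fc4_eq {α : Type} (v : K.I4) (f : K.I4 → α) : K.fc4 v f = f v := by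
  simp only [K.fc4, fcI_eq]

theorem fc16_eq {α : Type} (g : K.I16) (f : K.I16 → α) : K.fc16 g f = f g := by
  simp only [K.fc16, fc4_eq]

theorem bool_rec_ne_zero {x : ℕ} {b : Bool} (h : (Bool.rec 0 x b : ℕ) ≠ 0) : b = true ∧ x ≠ 0 := by
  cases b
  · exact absurd rfl h
  · exact ⟨rfl, h⟩

theorem rdI_ex (w s : ℕ) (f : K.I4 → ℕ → ℕ) : ∃ v s', K.rdI w s f = f v s' := by
  unfold K.rdI K.rd4
  simp only [fc_eq, fc4_eq]
  exact ⟨_, _, rfl⟩

theorem rdM_ex (w s : ℕ) (f : K.I16 → ℕ → ℕ) : ∃ v s', K.rdM w s f = f v s' := by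
  unfold K.rdM
  obtain ⟨v0, s0, h0⟩ := rdI_ex w s (fun a s => K.rdI w s fun b s => K.rdI w s fun c s =>
    K.rdI w s fun d s => f (K.I16.mk a b c d) s)
  obtain ⟨v1, s1, h1⟩ := rdI_ex w s0 (fun b s => K.rdI w s fun c s =>
    K.rdI w s fun d s => f (K.I16.mk v0 b c d) s)
  obtain ⟨v2, s2, h2⟩ := rdI_ex w s1 (fun c s => K.rdI w s fun d s => f (K.I16.mk v0 v1 c d) s)
  obtain ⟨v3, s3, h3⟩ := rdI_ex w s2 (fun d s => f (K.I16.mk v0 v1 v2 d) s)
  exact ⟨_, _, by rw [h0, h1, h2, h3]⟩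

/-! ### matrices -/

theorem apI_vI (g : K.I16) (v : K.I4) : vI (K.apI g v) = (matG g).mulVec (vI v) := by
  have h : K.apI g v = ⟨
    v.x * g.c0.x + v.y * g.c1.x + (v.z * g.c2.x + v.w * g.c3.x),
    v.x * g.c0.y + v.y * g.c1.y + (v.z * g.c2.y + v.w * g.c3.y),
    v.x * g.c0.z + v.y * g.c1.z + (v.z * g.c2.z + v.w * g.c3.z),
    v.x * g.c0.w + v.y * g.c1.w + (v.z * g.c2.w + v.w * g.c3.w)⟩ := rfl
  rw [h]
  ext i
  fin_cases i <;>
    simp [vI, matG, Matrix.mulVec, dotProduct, Fin.sum_univ_four] <;> ring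

theorem mulM_mat (g h : K.I16) : matG (K.mulM g h) = matG g * matG h := by
  ext i j
  have hj : vI (![(K.mulM g h).c0, (K.mulM g h).c1, (K.mulM g h).c2, (K.mulM g h).c3] j) =
      (matG g).mulVec (vI (![h.c0, h.c1, h.c2, h.c3] j)) := by
    fin_cases j
    · exact apI_vI g h.c0
    · exact apI_vI g h.c1
    · exact apI_vI g h.c2
    · exact apI_vI g h.c3
  show vI (![(K.mulM g h).c0, (K.mulM g h).c1, (K.mulM g h).c2, (K.mulM g h).c3] j) i = _
  rw [hj]
  rfl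

theorem trM_eq (g : K.I16) : K.trM g = (matG g).trace := by
  have h : K.trM g = g.c0.x + g.c1.y + (g.c2.z + g.c3.w) := rfl
  rw [h]
  simp [Matrix.trace, matG, vI, Fin.sum_univ_four]
  ring

theorem oneM_eq : matG K.oneM = 1 := by
  ext i j
  fin_cases i <;> fin_cases j <;> rfl

theorem det_matG (g : K.I16) : K.det4 g.c0 g.c1 g.c2 g.c3 = (matG g).det := by
  rw [det4_vI, d4, ← Matrix.det_transpose]
  congr 1
  ext i j
  fin_cases i <;> fin_cases j <;> rfl

theorem d4_mulVec (M : M4) (a b c d : Z4) :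
    d4 (M.mulVec a) (M.mulVec b) (M.mulVec c) (M.mulVec d) = M.det * d4 a b c d := by
  have h : Matrix.of ![M.mulVec a, M.mulVec b, M.mulVec c, M.mulVec d] =
      Matrix.of ![a, b, c, d] * M.transpose := by
    ext i j
    rw [Matrix.mul_apply]
    fin_cases i <;> simp [Matrix.mulVec, dotProduct, mul_comm]
  rw [d4, h, Matrix.det_mul, Matrix.det_transpose, mul_comm]
  rfl

theorem isoG_mat (A : K.I10) (g : K.I16) (h : K.isoG A g = true) :
    (matG g).transpose * matI A * matG g = matI A := by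
  have h' : K.isoG A g = K.ands (K.ands
    (K.ands (Int.beq' (K.dotI g.c0 (K.mulI A g.c0)) A.a00)
      (Int.beq' (K.dotI g.c0 (K.mulI A g.c1)) A.a01))
    (K.ands (Int.beq' (K.dotI g.c0 (K.mulI A g.c2)) A.a02)
      (Int.beq' (K.dotI g.c0 (K.mulI A g.c3)) A.a03)))
    (K.ands (K.ands (Int.beq' (K.dotI g.c1 (K.mulI A g.c1)) A.a11)
      (K.ands (Int.beq' (K.dotI g.c1 (K.mulI A g.c2)) A.a12)
      (Int.beq' (K.dotI g.c1 (K.mulI A g.c3)) A.a13)))
      (K.ands (Int.beq' (K.dotI g.c2 (K.mulI A g.c2)) A.a22)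
        (K.ands (Int.beq' (K.dotI g.c2 (K.mulI A g.c3)) A.a23)
        (Int.beq' (K.dotI g.c3 (K.mulI A g.c3)) A.a33)))) := rfl
  rw [h'] at h
  simp only [ands_iff, Int.beq'_eq, dotI_mulI] at h
  obtain ⟨⟨⟨h00, h01⟩, h02, h03⟩, ⟨h11, h12, h13⟩, h22, h23, h33⟩ := h
  have key : ∀ i j, ((matG g).transpose * matI A * matG g) i j =
      bz (matI A) (vI (![g.c0, g.c1, g.c2, g.c3] i)) (vI (![g.c0, g.c1, g.c2, g.c3] j)) := by
    intro i j
    rw [bz_eq, Matrix.mul_assoc, Matrix.mul_apply]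
    simp only [dotProduct]
    rfl
  ext i j
  rw [key]
  fin_cases i <;> fin_cases j
  · exact h00
  · exact h01
  · exact h02
  · exact h03
  · exact (bz_commA A _ _).trans h01
  · exact h11
  · exact h12
  · exact h13
  · exact (bz_commA A _ _).trans h02
  · exact (bz_commA A _ _).trans h12
  · exact h22
  · exact h23
  · exact (bz_commA A _ _).trans h03
  · exact (bz_commA A _ _).trans h13
  · exact (bz_commA A _ _).trans h23
  · exact h33

/-! ### vertices -/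

/-- a vertex with given order and orientation -/
def VP (G : M4) {n : ℕ} (f : Fin n → Z4) (o : ℤ) (v : K.Vx) : Prop :=
  ∃ i j k, f i = vI v.a ∧ f j = vI v.b ∧ f k = vI v.c ∧ IsV G f i j k ∧
    ∀ m, m ≠ i → m ≠ j → m ≠ k → 0 < o * d4 (vI v.a) (vI v.b) (vI v.c) (f m)

theorem isV_rot {G : M4} {n : ℕ} {f : Fin n → Z4} {i j k : Fin n} (h : IsV G f i j k) :
    IsV G f j k i := by
  obtain ⟨h1, h2, h3, V, hV, hm, hi, hj, hk⟩ := h
  exact ⟨h2, h3.symm, h1.symm, V, hV, hm, hj, hk, hi⟩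

theorem isV_swap {G : M4} {n : ℕ} {f : Fin n → Z4} {i j k : Fin n} (h : IsV G f i j k) :
    IsV G f j i k := by
  obtain ⟨h1, h2, h3, V, hV, hm, hi, hj, hk⟩ := h
  exact ⟨h1.symm, h3, h2, V, hV, hm, hj, hi, hk⟩

theorem d4_rot (a b c x : Z4) : d4 b c a x = d4 a b c x := by
  simp [d4, Matrix.det_succ_row_zero, Fin.sum_univ_succ, Fin.succAbove]
  ring

theorem d4_swap (a b c x : Z4) : d4 b a c x = -d4 a b c x := by
  simp [d4, Matrix.det_succ_row_zero, Fin.sum_univ_succ, Fin.succAbove]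
  ring

theorem vp_rot {G : M4} {n : ℕ} {f : Fin n → Z4} {o : ℤ} {a b c : K.I4}
    (h : VP G f o ⟨a, b, c⟩) : VP G f o ⟨b, c, a⟩ := by
  obtain ⟨i, j, k, hi, hj, hk, hv, hm⟩ := h
  refine ⟨j, k, i, hj, hk, hi, isV_rot hv, fun m h1 h2 h3 => ?_⟩
  have := hm m h3 h1 h2
  rw [← d4_rot] at this
  exact this

theorem vp_swap {G : M4} {n : ℕ} {f : Fin n → Z4} {o : ℤ} {a b c : K.I4}
    (h : VP G f o ⟨a, b, c⟩) : VP G f (-o) ⟨b, a, c⟩ := by
  obtain ⟨i, j, k, hi, hj, hk, hv, hm⟩ := h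
  refine ⟨j, i, k, hj, hi, hk, isV_swap hv, fun m h1 h2 h3 => ?_⟩
  have := hm m h2 h1 h3
  show 0 < -o * d4 (vI b) (vI a) (vI c) (f m)
  rw [d4_swap, neg_mul_neg]
  exact this

theorem vp_per {G : M4} {n : ℕ} {f : Fin n → Z4} {v : K.Vx} (h : VP G f 1 v) (pc : ℕ) :
    VP G f (Bool.rec (-1) 1 (Nat.blt pc 3)) (K.perV pc v) := by
  have h0 : VP G f 1 ⟨v.a, v.b, v.c⟩ := h
  have h1 := vp_rot h0
  have h2 := vp_rot h1
  match pc with
  | 0 => exact h
  | 1 => exact h1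
  | 2 => exact h2
  | 3 => exact vp_swap h0
  | 4 => exact vp_swap h2
  | (k + 5) =>
    have : Nat.blt (k + 5) 3 = false := by
      rw [Bool.eq_false_iff]
      intro h
      have := Nat.le_of_ble_eq_true h
      omega
    rw [this]
    exact vp_swap h1

/-! ### isometries -/

/-- an isometry which permutes the facets -/
def Gd (G : M4) {n : ℕ} (f : Fin n → Z4) (g : K.I16) : Prop :=
  ∃ u : M4ˣ, (u : M4) = matG g ∧ u ∈ OG G ∧ ∀ a, ∃ b, (u : M4).mulVec (f a) = f b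

theorem gd_one (G : M4) {n : ℕ} (f : Fin n → Z4) : Gd G f K.oneM :=
  ⟨1, by rw [oneM_eq, Units.val_one], (OG G).one_mem, fun a => ⟨a, by simp⟩⟩

theorem gd_mul {G : M4} {n : ℕ} {f : Fin n → Z4} {g h : K.I16} (hg : Gd G f g)
    (hh : Gd G f h) : Gd G f (K.mulM g h) := by
  obtain ⟨u, hu, huO, hup⟩ := hg
  obtain ⟨v, hv, hvO, hvp⟩ := hh
  refine ⟨u * v, by rw [mulM_mat, Units.val_mul, hu, hv], (OG G).mul_mem huO hvO, fun a => ?_⟩
  obtain ⟨b, hb⟩ := hvp a
  obtain ⟨c, hc⟩ := hup b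
  refine ⟨c, ?_⟩
  rw [Units.val_mul, ← Matrix.mulVec_mulVec, hb, hc]

theorem gd_of (hVI : VertexIsoStmt) (hFE : FarEndStmt) {A : K.I10} {n : ℕ} {f : Fin n → Z4}
    {O : R4} (hL : Lat (matI A)) (hC : Cham (matI A) n f O) {o : ℤ} {u v : K.Vx}
    (ho : o = 1 ∨ o = -1) (hu : VP (matI A) f 1 u) (hv : VP (matI A) f o v) {x : K.I16}
    (hx : K.isoG A x = true) (hd : (matG x).det = o) (ha : (matG x).mulVec (vI u.a) = vI v.a)
    (hb : (matG x).mulVec (vI u.b) = vI v.b) (hc : (matG x).mulVec (vI u.c) = vI v.c) :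
    Gd (matI A) f x := by
  have hunit : IsUnit (matG x) := by
    rw [Matrix.isUnit_iff_isUnit_det, hd]
    rcases ho with rfl | rfl
    · exact isUnit_one
    · exact isUnit_one.neg
  obtain ⟨w, hw⟩ := hunit
  have hwO : w ∈ OG (matI A) := by
    show (w : M4).transpose * matI A * (w : M4) = matI A
    rw [hw]
    exact isoG_mat A x hx
  obtain ⟨i, j, k, hi, hj, hk, hV, hm⟩ := hu
  obtain ⟨i', j', k', hi', hj', hk', hV', hm'⟩ := hv
  obtain ⟨m, hmk, hVm⟩ := hFE _ n f O hL hC i j k hV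
  obtain ⟨m', hmk', hVm'⟩ := hFE _ n f O hL hC i' j' k' hV'
  have hmi : m ≠ i := hVm.2.2.1.symm
  have hmj : m ≠ j := hVm.2.1.symm
  have hmi' : m' ≠ i' := hVm'.2.2.1.symm
  have hmj' : m' ≠ j' := hVm'.2.1.symm
  have h1 := hm m hmi hmj hmk
  have h2 := hm' m' hmi' hmj' hmk'
  refine ⟨w, hw, hwO, ?_⟩
  refine hVI _ n f O hL hC i j k i' j' k' m m' hV hV' hmi hmj hmk hmi' hmj' hmk' w hwO
    (by rw [hw, hi, hi', ha]) (by rw [hw, hj, hj', hb]) (by rw [hw, hk, hk', hc]) ?_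
  have h3 : d4 (f i') (f j') (f k') ((w : M4).mulVec (f m)) =
      o * d4 (vI u.a) (vI u.b) (vI u.c) (f m) := by
    rw [hi', hj', hk', ← ha, ← hb, ← hc, hw, d4_mulVec, hd]
  rw [h3, hi', hj', hk']
  have h4 : o * d4 (vI u.a) (vI u.b) (vI u.c) (f m) * d4 (vI v.a) (vI v.b) (vI v.c) (f m') =
      (1 * d4 (vI u.a) (vI u.b) (vI u.c) (f m)) *
        (o * d4 (vI v.a) (vI v.b) (vI v.c) (f m')) := by ring
  rw [h4]
  exact mul_pos h1 h2

theorem getV_mem (l : List K.Vx) : ∀ i, i < l.length → K.getV l i ∈ l := by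
  induction l with
  | nil => intro i hi; simp at hi
  | cons a l ih =>
    intro i hi
    cases i with
    | zero => exact List.mem_cons_self
    | succ i =>
      have : K.getV (a :: l) (i + 1) = K.getV l i := rfl
      rw [this]
      exact List.mem_cons_of_mem _ (ih i (by simpa using hi))

theorem len_eq (l : List K.Vx) : (List.rec 0 (fun _ _ n => Nat.succ n) l : ℕ) = l.length := by
  induction l with
  | nil => rfl
  | cons a l ih =>
    show Nat.succ (List.rec 0 (fun _ _ n => Nat.succ n) l : ℕ) = _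
    rw [ih]
    rfl

theorem isos_succ (A : K.I10) (l : List K.Vx) (k : ℕ) (K' : K.I16 → ℕ → ℕ) (g : K.I16) (s : ℕ) :
    K.isos A l (k + 1) K' g s =
    K.fc (Nat.mod s 33554432) fun h => K.fc (Nat.mod (Nat.div h 65536) 8) fun pc =>
    K.rdM (Nat.div h 524288) (Nat.div s 33554432) fun x s =>
    K.fc (List.rec 0 (fun _ _ n => Nat.succ n) l) fun len =>
    (fun u v : K.Vx => Bool.rec 0 (K.fc16 (K.mulM g x) fun g => K.isos A l k K' g s)
      (K.ands (K.ands (Nat.blt (Nat.mod h 256) len) (Nat.blt (Nat.mod (Nat.div h 256) 256) len))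
        (K.ands (K.ands (K.isoG A x)
          (Int.beq' (K.det4 x.c0 x.c1 x.c2 x.c3) (Bool.rec (Int.negSucc 0) 1 (Nat.blt pc 3))))
        (K.ands (K.eqI (K.apI x u.a) v.a)
          (K.ands (K.eqI (K.apI x u.b) v.b) (K.eqI (K.apI x u.c) v.c))))))
      (K.getV l (Nat.mod h 256)) (K.perV pc (K.getV l (Nat.mod (Nat.div h 256) 256))) := rfl

theorem blt_true {a b : ℕ} (h : Nat.blt a b = true) : a < b := Nat.le_of_ble_eq_true h

theorem isos_ok (hVI : VertexIsoStmt) (hFE : FarEndStmt) {A : K.I10} {n : ℕ} {f : Fin n → Z4}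
    {O : R4} (hL : Lat (matI A)) (hC : Cham (matI A) n f O) {l : List K.Vx}
    (hl : ∀ v ∈ l, VP (matI A) f 1 v) (K' : K.I16 → ℕ → ℕ) :
    ∀ (k : ℕ) (g : K.I16) (s : ℕ), K.isos A l k K' g s ≠ 0 → Gd (matI A) f g →
      ∃ g' s', Gd (matI A) f g' ∧ K' g' s' ≠ 0 := by
  intro k
  induction k with
  | zero =>
    intro g s h hg
    exact ⟨g, s, hg, h⟩
  | succ k ih =>
    intro g s h hg
    rw [isos_succ, fc_eq, fc_eq] at h
    obtain ⟨x, s', hx⟩ := rdM_ex (Nat.div (Nat.mod s 33554432) 524288) (Nat.div s 33554432)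
      (fun x s' =>
        K.fc (List.rec 0 (fun _ _ n => Nat.succ n) l) fun len =>
        (fun u v : K.Vx => Bool.rec 0 (K.fc16 (K.mulM g x) fun g => K.isos A l k K' g s')
          (K.ands (K.ands (Nat.blt (Nat.mod (Nat.mod s 33554432) 256) len)
            (Nat.blt (Nat.mod (Nat.div (Nat.mod s 33554432) 256) 256) len))
            (K.ands (K.ands (K.isoG A x)
              (Int.beq' (K.det4 x.c0 x.c1 x.c2 x.c3) (Bool.rec (Int.negSucc 0) 1
                (Nat.blt (Nat.mod (Nat.div (Nat.mod s 33554432) 65536) 8) 3))))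
            (K.ands (K.eqI (K.apI x u.a) v.a)
              (K.ands (K.eqI (K.apI x u.b) v.b) (K.eqI (K.apI x u.c) v.c))))))
          (K.getV l (Nat.mod (Nat.mod s 33554432) 256))
          (K.perV (Nat.mod (Nat.div (Nat.mod s 33554432) 65536) 8)
            (K.getV l (Nat.mod (Nat.div (Nat.mod s 33554432) 256) 256))))
    rw [hx, fc_eq, len_eq] at h
    obtain ⟨h1, h2⟩ := bool_rec_ne_zero h
    rw [fc16_eq] at h2
    simp only [ands_iff] at h1
    obtain ⟨⟨hu, hv⟩, ⟨hiso, hdet⟩, ha, hb, hc⟩ := h1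
    rw [eqI_iff, apI_vI] at ha hb hc
    rw [Int.beq'_eq, det_matG] at hdet
    refine ih _ _ h2 (gd_mul hg (gd_of hVI hFE hL hC ?_ (hl _ (getV_mem l _ (blt_true hu)))
      (vp_per (hl _ (getV_mem l _ (blt_true hv))) _) hiso ?_ ha hb hc))
    · cases Nat.blt (Nat.mod (Nat.div (Nat.mod s 33554432) 65536) 8) 3
      · exact Or.inr rfl
      · exact Or.inl rfl
    · exact hdet

theorem sqrs_ok : ∀ (k : ℕ) (g : K.I16), K.sqrs k g = true →
    4 < |((matG g) ^ (2 ^ k)).trace| := by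
  intro k
  induction k with
  | zero =>
    intro g h
    have h1 : 4 < (K.trM g).natAbs := blt_true h
    rw [trM_eq] at h1
    rw [pow_zero, pow_one]
    have h2 : ((4 : ℕ) : ℤ) < ((matG g).trace.natAbs : ℤ) := by exact_mod_cast h1
    rw [Int.natCast_natAbs] at h2
    exact h2
  | succ k ih =>
    intro g h
    have h1 : K.sqrs (k + 1) g = K.fc16 (K.mulM g g) fun g => K.sqrs k g := rfl
    rw [h1, fc16_eq] at h
    have h2 := ih _ h
    rw [mulM_mat, ← pow_two, ← pow_mul, ← pow_succ'] at h2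
    exact h2

theorem nonR (hW : WalkStmt) (hVI : VertexIsoStmt) (hFE : FarEndStmt) (hFO : FinOrdStmt)
    (hT : TraceStmt) : NonRStmt := by
  intro A s h hL hR
  have h1 : K.walk A s (fun l s => K.isos A l (Nat.mod s 16)
      (fun g s => K.okb (K.sqrs (Nat.mod s 16) g) (Nat.div s 16)) K.oneM (Nat.div s 16)) ≠ 0 := by
    intro h0
    unfold K.nonR at h
    rw [h0] at h
    exact absurd h (by simp)
  obtain ⟨n, f, O, l, s', hC, hl, h2⟩ := hW A s _ hL hR h1
  have hl' : ∀ v ∈ l, VP (matI A) f 1 v := by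
    intro v hv
    obtain ⟨i, j, k, hi, hj, hk, hV, hm⟩ := hl v hv
    exact ⟨i, j, k, hi, hj, hk, hV, fun m h1 h2 h3 => by rw [one_mul]; exact hm m h1 h2 h3⟩
  obtain ⟨g, s'', ⟨u, hu, huO, hup⟩, h3⟩ := isos_ok hVI hFE hL hC hl' _ _ _ _ h2 (gd_one _ f)
  obtain ⟨h4, -⟩ := bool_rec_ne_zero h3
  have h5 := sqrs_ok _ _ h4
  obtain ⟨m, hm, hm1⟩ := hFO _ n f O hL hC u huO hup
  rw [hu] at hm1
  have h6 := hT ((matG g) ^ (2 ^ (Nat.mod s'' 16))) m hm
    (by rw [← pow_mul, mul_comm, pow_mul, hm1, one_pow])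
  exact absurd h5 (not_lt.2 h6)

theorem nonT (hN : NonRStmt) : NonTStmt := by
  intro cb j l
  induction l generalizing j with
  | nil => intro _ i hi; simp at hi
  | cons s l ih =>
    intro h i hi
    have h1 : K.nonT cb j (s :: l) = Bool.rec false (K.nonT cb (Nat.succ j) l)
        (K.nonR (K.i10 24 (Nat.mod (Nat.shiftRight cb (Nat.mul 240 j)) (Nat.pow 2 240))) s) := rfl
    rw [h1] at h
    have h2 : K.nonR (K.i10 24 (Nat.mod (Nat.shiftRight cb (Nat.mul 240 j)) (Nat.pow 2 240))) s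
        = true ∧ K.nonT cb (Nat.succ j) l = true := by
      revert h
      cases K.nonR (K.i10 24 (Nat.mod (Nat.shiftRight cb (Nat.mul 240 j)) (Nat.pow 2 240))) s
      · intro h; exact absurd h (by simp)
      · intro h; exact ⟨rfl, h⟩
    cases i with
    | zero => exact hN _ s h2.1
    | succ i =>
      have h3 := ih (j + 1) h2.2 i (by simpa using hi)
      have h4 : j + 1 + i = j + (i + 1) := by omega
      rw [h4] at h3
      exact h3

end Pool.Agent.Refl.H69
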